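import Mathlib

set_option autoImplicit false

namespace Pool.Agent.P.MP_463344_co

open Finset

/-- Egervary duality for the assignment problem with integer weights. -/
theorem egervary {V : Type} [Fintype V] [DecidableEq V] (w : V → V → ℤ) :
    ∃ (p q : V → ℤ) (σ : V → V), Function.Injective σ ∧ (∀ x y, w x y ≤ p x + q y) ∧
      ∀ x, p x + q (σ x) = w x (σ x) := by
  classical
  let P : ℤ → Prop := fun z => ∃ p q : V → ℤ, (∀ x y, w x y ≤ p x + q y) ∧
    z = ∑ x, p x + ∑ y, q y
  have hb : ∃ b : ℤ, ∀ z, P z → b ≤ z := by
    refine ⟨∑ x, w x x, ?_⟩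
    rintro z ⟨p, q, h, rfl⟩
    rw [← Finset.sum_add_distrib]
    exact Finset.sum_le_sum fun x _ => h x x
  have hne : ∃ z, P z := by
    refine ⟨_, fun x => ∑ y, |w x y|, fun _ => 0, ?_, rfl⟩
    intro x y
    have h1 : |w x y| ≤ ∑ y, |w x y| :=
      Finset.single_le_sum (f := fun y => |w x y|) (fun y _ => abs_nonneg _) (Finset.mem_univ y)
    have h2 := le_abs_self (w x y)
    simp only [add_zero]
    exact h2.trans h1
  obtain ⟨z, ⟨p, q, hpq, hz⟩, hmin⟩ := Int.exists_least_of_bdd hb hne
  let t : V → Finset V := fun x => univ.filter fun y => p x + q y = w x y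
  have hall : ∀ s : Finset V, s.card ≤ (s.biUnion t).card := by
    intro s
    by_contra hlt
    push Not at hlt
    set N := s.biUnion t with hN
    have hfeas : ∀ x y, w x y ≤ (p x - if x ∈ s then 1 else 0) + (q y + if y ∈ N then 1 else 0) := by
      intro x y
      have h0 := hpq x y
      by_cases hx : x ∈ s
      · by_cases hy : y ∈ N
        · simp only [hx, hy, if_true]; omega
        · have : p x + q y ≠ w x y := by
            intro h
            apply hy
            rw [hN, Finset.mem_biUnion]
            exact ⟨x, hx, by simp [t, h]⟩
          simp only [hx, hy, if_true, if_false]; omega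
      · by_cases hy : y ∈ N
        · simp only [hx, hy, if_true, if_false]; omega
        · simp only [hx, hy, if_false]; omega
    have := hmin _ ⟨_, _, hfeas, rfl⟩
    rw [Finset.sum_sub_distrib, Finset.sum_add_distrib, hz] at this
    simp only [Finset.sum_ite_mem, Finset.univ_inter, Finset.sum_const, nsmul_eq_mul,
      mul_one] at this
    have h3 : (N.card : ℤ) < s.card := by exact_mod_cast hlt
    omega
  obtain ⟨σ, hσ, hσt⟩ := (Finset.all_card_le_biUnion_card_iff_exists_injective t).1 hall
  refine ⟨p, q, σ, hσ, hpq, fun x => ?_⟩
  have := hσt x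
  simpa [t] using this

/-- A final out-forest: every arc that does not go up in level ends in an ancestor. -/
theorem exists_final_forest {V : Type} [Fintype V] [DecidableEq V] (r : V → V → Prop) :
    ∃ (par : V → Option V) (lev : V → ℕ),
      (∀ x y, par y = some x → r x y ∧ lev y = lev x + 1) ∧
      ∀ x y, r x y → lev x < lev y ∨ Relation.ReflTransGen (fun u v => par v = some u) y x := by
  classical
  let Ok : (V → Option V) → (V → ℕ) → Prop := fun par lev =>
    (∀ x y, par y = some x → r x y ∧ lev y = lev x + 1) ∧ ∀ y, par y = none → lev y = 0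
  have hbound : ∀ par lev, Ok par lev → ∀ x, lev x < Fintype.card V := by
    intro par lev h x
    have h1 : ∀ n, ∀ x, lev x = n → ∀ j ≤ n, ∃ w, lev w = j := by
      intro n
      induction n with
      | zero => intro x hx j hj; exact ⟨x, by omega⟩
      | succ n ih =>
        intro x hx j hj
        rcases Nat.lt_or_ge j (n + 1) with h2 | h2
        · cases hp : par x with
          | none => have := h.2 x hp; omega
          | some y =>
            have := (h.1 y x hp).2
            exact ih y (by omega) j (by omega)
        · exact ⟨x, by omega⟩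
    have h2 : Finset.range (lev x + 1) ⊆ Finset.univ.image lev := by
      intro j hj
      obtain ⟨w, hw⟩ := h1 (lev x) x rfl j (by simpa [Nat.lt_succ_iff] using hj)
      exact Finset.mem_image.2 ⟨w, Finset.mem_univ _, hw⟩
    have h3 := Finset.card_le_card h2
    have h4 := Finset.card_image_le (s := (Finset.univ : Finset V)) (f := lev)
    rw [Finset.card_range] at h3
    rw [Finset.card_univ] at h4
    omega
  let P : ℤ → Prop := fun z => ∃ par lev, Ok par lev ∧ z = ((∑ x, lev x : ℕ) : ℤ)
  have hb : ∃ b : ℤ, ∀ z, P z → z ≤ b := by
    refine ⟨((∑ _x : V, Fintype.card V : ℕ) : ℤ), ?_⟩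
    rintro z ⟨par, lev, h, rfl⟩
    exact_mod_cast Finset.sum_le_sum fun x _ => (hbound par lev h x).le
  have hne : ∃ z, P z := ⟨_, fun _ => none, fun _ => 0, ⟨by simp, by simp⟩, rfl⟩
  obtain ⟨z, ⟨par, lev, hok, hz⟩, hmax⟩ := Int.exists_greatest_of_bdd hb hne
  refine ⟨par, lev, hok.1, fun u v huv => ?_⟩
  by_contra hcon
  push Not at hcon
  obtain ⟨hle, hnd⟩ := hcon
  let T : V → V → Prop := fun a b => par b = some a
  have hnd' : ¬ Relation.ReflTransGen T v u := hnd
  let d : ℕ := lev u + 1 - lev v
  let lev' : V → ℕ := fun x => if Relation.ReflTransGen T v x then lev x + d else lev x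
  have hok' : Ok (Function.update par v (some u)) lev' := by
    constructor
    · intro x y hxy
      by_cases hy : y = v
      · subst hy
        rw [Function.update_self] at hxy
        have hx : u = x := Option.some.inj hxy
        subst hx
        refine ⟨huv, ?_⟩
        have h1 : Relation.ReflTransGen T y y := Relation.ReflTransGen.refl
        simp only [lev', if_pos h1, if_neg hnd', d]
        omega
      · rw [Function.update_of_ne hy] at hxy
        obtain ⟨h1, h2⟩ := hok.1 x y hxy
        refine ⟨h1, ?_⟩
        by_cases hx : Relation.ReflTransGen T v x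
        · have hy' : Relation.ReflTransGen T v y := hx.tail hxy
          simp only [lev', if_pos hx, if_pos hy']
          omega
        · have hy' : ¬ Relation.ReflTransGen T v y := by
            intro h
            rcases h.cases_tail with h | ⟨c, hc, hcy⟩
            · exact hy h
            · have : c = x := Option.some.inj (hcy.symm.trans hxy)
              exact hx (this ▸ hc)
          simp only [lev', if_neg hx, if_neg hy']
          omega
    · intro y hyn
      by_cases hy : y = v
      · subst hy
        rw [Function.update_self] at hyn
        exact absurd hyn (by simp)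
      · rw [Function.update_of_ne hy] at hyn
        have hy' : ¬ Relation.ReflTransGen T v y := by
          intro h
          rcases h.cases_tail with h | ⟨c, _, hcy⟩
          · exact hy h
          · have : par y = some c := hcy
            rw [hyn] at this
            exact absurd this (by simp)
        simp only [lev', if_neg hy']
        exact hok.2 y hyn
  have h1 := hmax _ ⟨_, _, hok', rfl⟩
  have h2 : ∑ x, lev x < ∑ x, lev' x := by
    apply Finset.sum_lt_sum
    · intro x _
      simp only [lev']
      split_ifs <;> omega
    · refine ⟨v, Finset.mem_univ _, ?_⟩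
      have h1 : Relation.ReflTransGen T v v := Relation.ReflTransGen.refl
      simp only [lev', if_pos h1, d]
      omega
  rw [hz] at h1
  have h3 : ∑ x, lev' x ≤ ∑ x, lev x := by exact_mod_cast h1
  omega

end Pool.Agent.P.MP_463344_co
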