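import Mathlib

set_option autoImplicit false

namespace Pool.Agent.P.MP_463344_co

open Finset

/-- cost of a path: one for a fixed singleton, otherwise `k`. -/
def pcost {V : Type} [DecidableEq V] (σ : V → V) (k : ℕ) : List V → ℕ
  | [t] => if σ t = t then 1 else k
  | _ => k

theorem min_le_pcost {V : Type} [DecidableEq V] (σ : V → V) (k : ℕ) (l : List V) :
    min l.length k ≤ pcost σ k l := by
  match l with
  | [] => simp [pcost]
  | [t] =>
    simp only [pcost, List.length_singleton]
    split_ifs <;> omega
  | _ :: _ :: _ => simp [pcost]

/-- An injective successor map on an acyclic relation gives a path partition. -/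
theorem exists_paths {V : Type} [DecidableEq V] (H : V → V → Prop) [DecidableRel H]
    (lev : V → ℕ) (hlev : ∀ x y, H x y → lev x < lev y) (σ : V → V)
    (hσ : Function.Injective σ) (k : ℕ) (U : Finset V) :
    (∀ x ∈ U, H x (σ x) → σ x ∈ U) →
    ∃ L : List (List V),
      (∀ l ∈ L, l ≠ [] ∧ ∀ p ∈ l.zip l.tail, H p.1 p.2) ∧
      ((L.flatten : List V) : Multiset V) = U.val ∧
      (∀ y ∈ U, (∀ x ∈ U, H x (σ x) → σ x ≠ y) → ∃ l ∈ L, l.head? = some y) ∧
      (L.map (pcost σ k)).sum =
        ∑ x ∈ U, (if H x (σ x) then 0 else if σ x = x then 1 else k) := by
  induction U using Finset.induction_on_min_value lev with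
  | empty => intro _; exact ⟨[], by simp, by simp, by simp, by simp⟩
  | insert a s ha hmin ih =>
    intro hcl
    have hcl' : ∀ x ∈ s, H x (σ x) → σ x ∈ s := by
      intro x hx hH
      rcases Finset.mem_insert.1 (hcl x (Finset.mem_insert_of_mem hx) hH) with h | h
      · have h1 := hlev _ _ hH
        have h2 := hmin x hx
        rw [h] at h1
        omega
      · exact h
    obtain ⟨L, h1, h2, h3, h4⟩ := ih hcl'
    by_cases hH : H a (σ a)
    · have hne : σ a ≠ a := by
        intro h
        have := hlev _ _ hH
        rw [h] at this
        omega
      have hs : σ a ∈ s := by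
        rcases Finset.mem_insert.1 (hcl a (Finset.mem_insert_self _ _) hH) with h | h
        · exact absurd h hne
        · exact h
      obtain ⟨l, hl, hhead⟩ := h3 (σ a) hs (fun x hx _ h => ha (hσ h ▸ hx))
      obtain ⟨L1, L2, rfl⟩ := List.append_of_mem hl
      obtain ⟨m, rfl⟩ : ∃ m, l = σ a :: m := by
        cases l with
        | nil => simp at hhead
        | cons b m => exact ⟨m, by simp at hhead; rw [hhead]⟩
      refine ⟨(a :: σ a :: m) :: (L1 ++ L2), ?_, ?_, ?_, ?_⟩
      · intro l hl'
        rcases List.mem_cons.1 hl' with rfl | hl'
        · refine ⟨by simp, ?_⟩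
          intro p hp
          simp only [List.tail_cons, List.zip_cons_cons, List.mem_cons] at hp
          rcases hp with rfl | hp
          · exact hH
          · exact (h1 _ hl).2 p (by simpa using hp)
        · apply h1
          rcases List.mem_append.1 hl' with h | h
          · exact List.mem_append_left _ h
          · exact List.mem_append_right _ (List.mem_cons_of_mem _ h)
      · rw [Finset.insert_val_of_notMem ha, ← h2]
        simp only [List.flatten_cons, List.flatten_append, List.cons_append,
          ← Multiset.cons_coe, ← Multiset.coe_add, ← Multiset.singleton_add]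
        abel
      · intro y hy hno
        rcases Finset.mem_insert.1 hy with rfl | hys
        · exact ⟨_, List.mem_cons_self, rfl⟩
        · obtain ⟨l', hl', hh⟩ := h3 y hys (fun x hx => hno x (Finset.mem_insert_of_mem hx))
          have hy' : σ a ≠ y := hno a (Finset.mem_insert_self _ _) hH
          refine ⟨l', List.mem_cons_of_mem _ ?_, hh⟩
          rcases List.mem_append.1 hl' with h | h
          · exact List.mem_append_left _ h
          · rcases List.mem_cons.1 h with rfl | h
            · simp at hh
              exact absurd hh hy'
            · exact List.mem_append_right _ h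
      · rw [Finset.sum_insert ha, ← h4, if_pos hH]
        have hc : pcost σ k (σ a :: m) = k := by
          cases m with
          | nil =>
            have : σ (σ a) ≠ σ a := fun h => hne (hσ h)
            simp [pcost, this]
          | cons b m => simp [pcost]
        have hc2 : pcost σ k (a :: σ a :: m) = k := by simp [pcost]
        simp only [List.map_cons, List.map_append, List.sum_cons, List.sum_append, hc, hc2]
        omega
    · refine ⟨[a] :: L, ?_, ?_, ?_, ?_⟩
      · intro l hl
        rcases List.mem_cons.1 hl with rfl | hl
        · simp
        · exact h1 l hl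
      · rw [Finset.insert_val_of_notMem ha, ← h2]
        simp
      · intro y hy hno
        rcases Finset.mem_insert.1 hy with rfl | hys
        · exact ⟨_, List.mem_cons_self, rfl⟩
        · obtain ⟨l', hl', hh⟩ := h3 y hys (fun x hx => hno x (Finset.mem_insert_of_mem hx))
          exact ⟨l', List.mem_cons_of_mem _ hl', hh⟩
      · rw [Finset.sum_insert ha, ← h4, if_neg hH]
        simp [pcost]

end Pool.Agent.P.MP_463344_co
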