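import Pool.Agent.P.MP_463344_co.Dual
import Pool.Agent.P.MP_463344_co.Paths

set_option autoImplicit false

namespace Pool.Agent.P.MP_463344_co

open Finset

/-- The nearest ancestor below level `c` is unique. -/
theorem anc_unique {V : Type} (par : V → Option V) (a : V → ℤ) (c : ℤ) (v v' : V)
    (hv : a v < c) (hv' : a v' < c) (z : V)
    (h : Relation.TransGen (fun y x => par x = some y ∧ c ≤ a x) v z) :
    Relation.TransGen (fun y x => par x = some y ∧ c ≤ a x) v' z → v = v' := by
  have htop : ∀ u x, Relation.TransGen (fun y x => par x = some y ∧ c ≤ a x) u x → c ≤ a x := by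
    intro u x hx
    cases hx with
    | single h => exact h.2
    | tail _ h => exact h.2
  induction h with
  | single h =>
    intro h'
    cases h' with
    | single h' => exact Option.some.inj (h.1.symm.trans h'.1)
    | tail h1 h2 =>
      have := Option.some.inj (h.1.symm.trans h2.1)
      subst this
      have := htop _ _ h1
      omega
  | tail h0 h ih =>
    intro h'
    cases h' with
    | single h' =>
      have := Option.some.inj (h.1.symm.trans h'.1)
      subst this
      have := htop _ _ h0
      omega
    | tail h1 h2 =>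
      have := Option.some.inj (h.1.symm.trans h2.1)
      subst this
      exact ih h1

/-- On the forest path from `v` down to a vertex below level `c` the potential drops across `c`. -/
theorem exists_drop {V : Type} (par : V → Option V) (a b : V → ℤ) (c : ℤ)
    (hab : ∀ x y, par y = some x → b x ≤ a y) (v : V) (hv : c ≤ b v) (x : V)
    (h : Relation.TransGen (fun y x => par x = some y) v x) :
    (∃ z, b z < c ∧ c ≤ a z ∧ Relation.TransGen (fun y x => par x = some y ∧ c ≤ a x) v z) ∨
      (c ≤ a x ∧ Relation.TransGen (fun y x => par x = some y ∧ c ≤ a x) v x) := by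
  induction h with
  | single h =>
    have := hab _ _ h
    exact Or.inr ⟨by omega, Relation.TransGen.single ⟨h, by omega⟩⟩
  | @tail y x h0 h ih =>
    rcases ih with ih | ⟨h1, h2⟩
    · exact Or.inl ih
    · by_cases hy : b y < c
      · exact Or.inl ⟨y, hy, h1, h2⟩
      · have := hab _ _ h
        exact Or.inr ⟨by omega, h2.tail ⟨h, by omega⟩⟩

/-- Linial's inequality for an arbitrary relation on a finite type. -/
theorem linial {V : Type} [Fintype V] (r : V → V → Prop) (k : ℕ) (hk : 0 < k) :
    ∃ (L : List (List V)) (S : Finset V) (c : V → Fin k),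
      (∀ l ∈ L, l ≠ [] ∧ ∀ p ∈ l.zip l.tail, r p.1 p.2) ∧
      L.flatten.Nodup ∧
      (∀ v : V, v ∈ L.flatten) ∧
      (∀ u ∈ S, ∀ v ∈ S, u ≠ v → c u = c v → ¬ r u v) ∧
      (L.map (fun l => min l.length k)).sum ≤ S.card := by
  classical
  rcases isEmpty_or_nonempty V with hV | hV
  · exact ⟨[], ∅, fun _ => ⟨0, hk⟩, by simp, by simp, fun v => isEmptyElim v, by simp, by simp⟩
  obtain ⟨par, lev, hpar, hfin⟩ := exists_final_forest r
  let H : V → V → Prop := fun x y => r x y ∧ lev x < lev y
  let w : V → V → ℤ := fun x y => if H x y then k else if y = x then k - 1 else 0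
  obtain ⟨p, q, σ, hσ, hfeas, htight⟩ := egervary w
  obtain ⟨y0, -, hy0⟩ := Finset.exists_min_image (Finset.univ : Finset V) q Finset.univ_nonempty
  let a : V → ℤ := fun y => q y - q y0
  let b : V → ℤ := fun x => k - (p x + q y0)
  have hk' : (1 : ℤ) ≤ k := by exact_mod_cast hk
  have ha : ∀ y, 0 ≤ a y := fun y => by
    have := hy0 y (Finset.mem_univ _)
    simp only [a]; omega
  have hb : ∀ x, b x ≤ k := fun x => by
    have h1 := hfeas x y0
    have h2 : 0 ≤ w x y0 := by
      simp only [w]
      split_ifs <;> omega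
    simp only [b]; omega
  have hH : ∀ x y, H x y → b x ≤ a y := fun x y h => by
    have h1 := hfeas x y
    simp only [w, if_pos h] at h1
    simp only [a, b]; omega
  have hone : ∀ x, b x - a x ≤ 1 := fun x => by
    have h1 := hfeas x x
    have h2 : ¬ H x x := fun h => lt_irrefl _ h.2
    simp only [w, if_neg h2, if_true] at h1
    simp only [a, b]; omega
  obtain ⟨L, hL1, hL2, -, hL4⟩ := exists_paths H lev (fun x y h => h.2) σ hσ k Finset.univ
    (fun x _ _ => Finset.mem_univ _)
  have hval : (((L.map (pcost σ k)).sum : ℕ) : ℤ) = ∑ x, (b x - a x) := by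
    have hbij : Function.Bijective σ := Finite.injective_iff_bijective.1 hσ
    have h1 : ∑ x, q (σ x) = ∑ x, q x := hbij.sum_comp q
    have h2 : ∑ x, (b x - a x) = ∑ x, ((k : ℤ) - (p x + q (σ x))) := by
      simp only [a, b, Finset.sum_sub_distrib, Finset.sum_add_distrib, h1]
      ring
    rw [hL4, h2]
    push_cast
    apply Finset.sum_congr rfl
    intro x _
    rw [htight x]
    simp only [w]
    split_ifs <;> omega
  let Pos : Finset V := Finset.univ.filter fun x => b x - a x = 1
  let Bad : Finset V := Pos.filter fun v => ∃ x, a x = a v ∧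
    Relation.TransGen (fun y x => par x = some y) v x
  let Pairs : Finset (Σ _ : V, ℤ) := Finset.univ.sigma fun z => Finset.Ioc (b z) (a z)
  have hPairs : ∑ x, (b x - a x) + (Pairs.card : ℤ) ≤ Pos.card := by
    have h1 : (Pairs.card : ℤ) = ∑ z, (((a z - b z).toNat : ℕ) : ℤ) := by
      simp only [Pairs, Finset.card_sigma, Int.card_Ioc]
      push_cast
      rfl
    have h2 : (Pos.card : ℤ) = ∑ z, (if b z - a z = 1 then (1 : ℤ) else 0) := by
      simp only [Pos, Finset.card_filter]
      push_cast
      rfl
    rw [h1, h2, ← Finset.sum_add_distrib]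
    apply Finset.sum_le_sum
    intro z _
    have := hone z
    split_ifs <;> omega
  have hBad : Bad.card ≤ Pairs.card := by
    apply Finset.card_le_card_of_forall_subsingleton
      (fun (v : V) (t : Σ _ : V, ℤ) => a v < t.2 ∧
        Relation.TransGen (fun y x => par x = some y ∧ t.2 ≤ a x) v t.1)
    · intro v hv
      obtain ⟨hv1, x, hx1, hx2⟩ := Finset.mem_filter.1 hv
      have hv2 := (Finset.mem_filter.1 hv1).2
      have hab : ∀ x y, par y = some x → b x ≤ a y := fun x y h =>
        hH x y ⟨(hpar x y h).1, by have := (hpar x y h).2; omega⟩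
      rcases exists_drop par a b (a v + 1) hab v (by omega) x hx2 with ⟨z, h1, h2, h3⟩ | ⟨h1, -⟩
      · refine ⟨⟨z, a v + 1⟩, ?_, by simp, h3⟩
        simp only [Pairs, Finset.mem_sigma, Finset.mem_univ, Finset.mem_Ioc, true_and]
        exact ⟨h1, h2⟩
      · omega
    · rintro ⟨z, c⟩ - v ⟨-, h1, h2⟩ v' ⟨-, h3, h4⟩
      exact anc_unique par a c v v' h1 h3 z h2 h4
  refine ⟨L, Pos \ Bad, fun x => if h : (a x).toNat < k then ⟨(a x).toNat, h⟩ else ⟨0, hk⟩,
    fun l hl => ⟨(hL1 l hl).1, fun p hp => ((hL1 l hl).2 p hp).1⟩, ?_, ?_, ?_, ?_⟩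
  · have : ((L.flatten : List V) : Multiset V).Nodup := by
      rw [hL2]; exact Finset.univ.nodup
    exact Multiset.coe_nodup.1 this
  · intro v
    have : v ∈ ((L.flatten : List V) : Multiset V) := by
      rw [hL2]; exact Finset.mem_univ v
    exact Multiset.mem_coe.1 this
  · intro u hu v hv huv hc hr
    obtain ⟨hu1, -⟩ := Finset.mem_sdiff.1 hu
    obtain ⟨hv1, hv3⟩ := Finset.mem_sdiff.1 hv
    have hu2 := (Finset.mem_filter.1 hu1).2
    have hv2 := (Finset.mem_filter.1 hv1).2
    have hau := ha u
    have hav := ha v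
    have hbu := hb u
    have hbv := hb v
    have h1 : (a u).toNat < k := by omega
    have h2 : (a v).toNat < k := by omega
    simp only [dif_pos h1, dif_pos h2, Fin.mk.injEq] at hc
    have h3 : a u = a v := by omega
    rcases hfin u v hr with h | h
    · have := hH u v ⟨hr, h⟩
      omega
    · apply hv3
      refine Finset.mem_filter.2 ⟨hv1, u, h3, ?_⟩
      rcases Relation.reflTransGen_iff_eq_or_transGen.1 h with h | h
      · exact absurd h huv
      · exact h
  · have h1 : (L.map (fun l => min l.length k)).sum ≤ (L.map (pcost σ k)).sum :=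
      List.sum_le_sum fun l _ => min_le_pcost σ k l
    have h2 : Pos.card ≤ (Pos \ Bad).card + Bad.card := Finset.card_le_card_sdiff_add_card
    omega

end Pool.Agent.P.MP_463344_co
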